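import Pool.Agent.Helper99.PG.GoalsF
import Pool.Agent.Helper54.PG.FILL

/-!
PROJECT C2, target (a), packet FFILL: the regions of `fill`.
-/

namespace Pool.Agent.Helper16.PG

open Pool.Agent.Helper36.SC Pool.Agent.Helper37.Arb Pool.Agent.Helper52.C2
open Pool.Agent.Helper99.PG
open scoped Classical

section skel

variable {V : Type} (S : Skel V)

theorem same_region {W : Type} (D : AltDiagram W) {c c' : W × Corner} (h : D.SameSide c c') :
    D.region c = D.region c' := Quotient.sound (Relation.EqvGen.rel _ _ h)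

theorem r_left (v : Option V) :
    S.D.region (v, .left) = S.D.region (S.D.underNext v, .left) := by
  apply same_region
  have h := AltDiagram.SameSide.underLeft (D := S.D) v
  simp only [S.pos, if_true] at h
  exact h

theorem r_right (v : Option V) :
    S.D.region (v, .right) = S.D.region (S.D.overNext v, .right) := by
  apply same_region
  have h := AltDiagram.SameSide.overRight (D := S.D) v
  simp only [S.pos, if_true] at h
  exact h

theorem r_under (v : Option V) :
    S.D.region (v, .front) = S.D.region (S.D.underNext v, .back) := by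
  apply same_region
  have h := AltDiagram.SameSide.underRight (D := S.D) v
  simp only [S.pos, if_true] at h
  exact h

theorem r_over (v : Option V) :
    S.D.region (v, .front) = S.D.region (S.D.overNext v, .back) := by
  apply same_region
  have h := AltDiagram.SameSide.overLeft (D := S.D) v
  simp only [S.pos, if_true] at h
  exact h

theorem exists_wl : ∃ w, S.D.underNext none = some w := by
  rw [← Option.ne_none_iff_exists']
  intro h
  have h1 := S.D.underNext.injective (h.trans S.hl.symm)
  exact absurd h1 (by simp)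

theorem exists_wr : ∃ w, S.D.overNext none = some w := by
  rw [← Option.ne_none_iff_exists']
  intro h
  have h1 := S.D.overNext.injective (h.trans S.hr.symm)
  exact absurd h1 (by simp)

theorem sm_next {c c' : V × Corner} (h : S.sm c c') :
    S.D.overNext (some c.1) = some c'.1 ∨ S.D.underNext (some c.1) = some c'.1 := by
  unfold Skel.sm at h
  obtain ⟨x, hx⟩ : ∃ x, x = (some c.1, c.2) := ⟨_, rfl⟩
  obtain ⟨y, hy⟩ : ∃ y, y = (some c'.1, c'.2) := ⟨_, rfl⟩
  rw [← hx, ← hy] at h
  cases h with
  | overLeft v =>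
    left
    have h1 := congrArg Prod.fst hx
    have h2 := congrArg Prod.fst hy
    exact (congrArg S.D.overNext h1.symm).trans h2
  | overRight v =>
    left
    have h1 := congrArg Prod.fst hx
    have h2 := congrArg Prod.fst hy
    exact (congrArg S.D.overNext h1.symm).trans h2
  | underLeft v =>
    right
    have h1 := congrArg Prod.fst hx
    have h2 := congrArg Prod.fst hy
    exact (congrArg S.D.underNext h1.symm).trans h2
  | underRight v =>
    right
    have h1 := congrArg Prod.fst hx
    have h2 := congrArg Prod.fst hy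
    exact (congrArg S.D.underNext h1.symm).trans h2

theorem region_some (R : S.D.Region) : ∃ (v : V) (X : Corner), R = S.D.region (some v, X) := by
  obtain ⟨⟨o, X⟩, rfl⟩ := Quotient.exists_rep R
  change ∃ (v : V) (X' : Corner), S.D.region (o, X) = S.D.region (some v, X')
  cases o with
  | some v => exact ⟨v, X, rfl⟩
  | none =>
    obtain ⟨wl, hwl⟩ := exists_wl S
    obtain ⟨wr, hwr⟩ := exists_wr S
    cases X with
    | left =>
      refine ⟨wl, .left, ?_⟩
      rw [r_left, hwl]
    | right =>
      refine ⟨wr, .right, ?_⟩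
      rw [r_right, hwr]
    | front =>
      refine ⟨wl, .back, ?_⟩
      rw [r_under, hwl]
    | back =>
      refine ⟨S.l, .front, ?_⟩
      rw [r_under, S.hl]

end skel

section lab

variable {V : Type} (S : Skel V) (M : V → Marked) (F : V → Type)
  (G : ∀ v, Faces true (M v).D (M v).l (M v).r (F v))

theorem lab_N (v : V) : lab S M F G v (G v).N = .inl (S.D.region (some v, .front)) := by
  unfold lab
  rw [dif_neg (fun h => h.1 rfl), if_pos rfl]

theorem lab_S (v : V) : lab S M F G v (G v).S = .inl (S.D.region (some v, .back)) := by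
  unfold lab
  rw [dif_neg (fun h => h.2.1 rfl), if_neg (G v).NS.symm, if_pos rfl]

theorem lab_W (v : V) : lab S M F G v (G v).W = .inl (S.D.region (some v, .left)) := by
  unfold lab
  rw [dif_neg (fun h => h.2.2.1 rfl), if_neg (G v).NW.symm, if_neg (G v).SW.symm, if_pos rfl]

theorem lab_E (v : V) : lab S M F G v (G v).E = .inl (S.D.region (some v, .right)) := by
  unfold lab
  rw [dif_neg (fun h => h.2.2.2 rfl), if_neg (G v).NE.symm, if_neg (G v).SE.symm,
    if_neg (G v).WE.symm]

theorem lab_in (v : V) (x : F v) (h : x ≠ (G v).N ∧ x ≠ (G v).S ∧ x ≠ (G v).W ∧ x ≠ (G v).E) :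
    lab S M F G v x = .inr ⟨v, x, h⟩ := by
  unfold lab
  rw [dif_pos h]

theorem lab_some (v : V) (X : Corner) :
    ∃ x, lab S M F G v x = .inl (S.D.region (some v, X)) := by
  cases X with
  | left => exact ⟨_, lab_W S M F G v⟩
  | right => exact ⟨_, lab_E S M F G v⟩
  | front => exact ⟨_, lab_N S M F G v⟩
  | back => exact ⟨_, lab_S S M F G v⟩

end lab

theorem card_four {A : Type} [Finite A] {a b c d : A} (hab : a ≠ b) (hac : a ≠ c) (had : a ≠ d)
    (hbc : b ≠ c) (hbd : b ≠ d) (hcd : c ≠ d) :
    Nat.card {x : A // x ≠ a ∧ x ≠ b ∧ x ≠ c ∧ x ≠ d} + 4 = Nat.card A := by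
  have := Fintype.ofFinite A
  simp only [Nat.card_eq_fintype_card]
  rw [Fintype.card_subtype]
  have h1 : (Finset.univ.filter fun x : A => x ≠ a ∧ x ≠ b ∧ x ≠ c ∧ x ≠ d) =
      Finset.univ \ {a, b, c, d} := by
    ext x; simp
  have h3 : ({a, b, c, d} : Finset A).card = 4 := by
    rw [Finset.card_insert_of_notMem, Finset.card_insert_of_notMem, Finset.card_insert_of_notMem,
      Finset.card_singleton]
    · simpa using hcd
    · simp only [Finset.mem_insert, Finset.mem_singleton, not_or]
      exact ⟨hbc, hbd⟩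
    · simp only [Finset.mem_insert, Finset.mem_singleton, not_or]
      exact ⟨hab, hac, had⟩
  have h4 : ({a, b, c, d} : Finset A).card ≤ (Finset.univ : Finset A).card :=
    Finset.card_le_card (Finset.subset_univ _)
  rw [h1, Finset.card_sdiff_of_subset (Finset.subset_univ _), h3]
  rw [h3] at h4
  rw [Finset.card_univ] at *
  omega

/-- FFILL -/
theorem fFill : GoalFFill := by
  intro _ hEdge hConn hLab V _ _ S M hF
  choose F hF' using hF
  obtain ⟨G, _⟩ : ∃ G : ∀ v, Faces true (M v).D (M v).l (M v).r (F v), True :=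
    ⟨fun v => (hF' v).some, trivial⟩
  have hc := (hConn S).2 none none
  obtain ⟨wl, hwl⟩ := exists_wl S
  obtain ⟨wr, hwr⟩ := exists_wr S
  have hfin : ∀ v, Finite (F v) := fun v => (G v).fin
  have hfr : Finite S.D.Region := by
    unfold AltDiagram.Region
    infer_instance
  have hun := Pool.Agent.Helper54.PG.fill_under S.D S.l S.r wl M S.hl hwl
  have hov := Pool.Agent.Helper54.PG.fill_over S.D S.l S.r wr M S.hr hwr
  refine ⟨FF S M F G, ⟨{
    ρ := fun x => lab S M F G x.1.1 ((G x.1.1).ρ (x.1.2, x.2))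
    N := .inl (S.D.region (none, .back))
    S := .inl (S.D.region (none, .front))
    W := .inl (S.D.region (none, .left))
    E := .inl (S.D.region (none, .right))
    NS := fun h => S.cut (Sum.inl_injective h).symm
    NW := fun h => hc.2.2.1 (Sum.inl_injective h).symm
    NE := fun h => hc.2.2.2.2 (Sum.inl_injective h).symm
    SW := fun h => hc.2.1 (Sum.inl_injective h).symm
    SE := fun h => hc.2.2.2.1 (Sum.inl_injective h).symm
    WE := fun h => hc.1 (Sum.inl_injective h)
    fin := by
      unfold FF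
      infer_instance
    card := ?_
    surj := ?_
    sound := ?_
    conn := ⟨?_, ?_⟩
    l1 := ?_
    l2 := ?_
    l3 := ?_
    l4 := ?_
    t1 := fun _ => ?_
    t2 := fun _ => ?_
    t3 := fun _ => ?_
    t4 := fun _ => ?_
    f0 := fun h => absurd h (by simp)
    f1 := fun h => absurd h (by simp)
    f2 := fun h => absurd h (by simp)
    f3 := fun h => absurd h (by simp)
    f4 := fun h => absurd h (by simp) }⟩⟩
  · -- the number of regions
    have h0 : Nat.card S.D.Region = Nat.card V + 3 := by
      have h1 := S.planar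
      unfold AltDiagram.Planar at h1
      rw [h1, Finite.card_option]
    have h1 : ∀ v, Nat.card {x : F v // x ≠ (G v).N ∧ x ≠ (G v).S ∧ x ≠ (G v).W ∧ x ≠ (G v).E}
        + 1 = Nat.card (M v).V := fun v => by
      have h2 := card_four (G v).NS (G v).NW (G v).NE (G v).SW (G v).SE (G v).WE
      have h3 := (G v).card
      omega
    have h2 : Nat.card (Σ v, (M v).V) = ∑ v, Nat.card (M v).V := Nat.card_sigma
    have h3 : Nat.card (FF S M F G) = Nat.card S.D.Region +
        ∑ v, Nat.card {x : F v // x ≠ (G v).N ∧ x ≠ (G v).S ∧ x ≠ (G v).W ∧ x ≠ (G v).E} := by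
      unfold FF
      rw [Nat.card_sum, Nat.card_sigma]
    change Nat.card (FF S M F G) = Nat.card (Σ v, (M v).V) + 3
    rw [h3, h2, h0]
    have h4 : ∑ v, Nat.card (M v).V =
        ∑ v, Nat.card {x : F v // x ≠ (G v).N ∧ x ≠ (G v).S ∧ x ≠ (G v).W ∧ x ≠ (G v).E} +
          Nat.card V := by
      rw [Finset.sum_congr rfl fun v _ => (h1 v).symm, Finset.sum_add_distrib,
        Finset.sum_const, Finset.card_univ, smul_eq_mul, mul_one, Nat.card_eq_fintype_card]
    rw [h4]
    ring
  · -- surjective
    rintro (R | ⟨v, x, hx⟩)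
    · obtain ⟨v, X, rfl⟩ := region_some S R
      obtain ⟨x, hx⟩ := lab_some S M F G v X
      obtain ⟨⟨p, Y⟩, hp⟩ := (G v).surj x
      refine ⟨(⟨v, p⟩, Y), ?_⟩
      change lab S M F G v ((G v).ρ (p, Y)) = _
      rw [hp]
      exact hx
    · obtain ⟨⟨p, Y⟩, hp⟩ := (G v).surj x
      refine ⟨(⟨v, p⟩, Y), ?_⟩
      change lab S M F G v ((G v).ρ (p, Y)) = _
      rw [hp]
      exact lab_in S M F G v x hx
  · -- sound
    intro c c' h
    exact (hLab S M F G c.1.1 c'.1.1 (c.1.2, c.2) (c'.1.2, c'.2)).1 h
  · -- complete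
    intro c c' h
    exact (hLab S M F G c.1.1 c'.1.1 (c.1.2, c.2) (c'.1.2, c'.2)).2 h
  · -- connected
    obtain ⟨st, hst⟩ : ∃ st : Setoid (Σ v, (M v).V), st = Relation.EqvGen.setoid
        (fun v w => ∃ c c', Opn true (fill S.D S.l S.r M).D (fill S.D S.l S.r M).l
          (fill S.D S.l S.r M).r (v, c) (w, c')) := ⟨_, rfl⟩
    have hrel : ∀ x y : Σ v, (M v).V, (∃ c c', Opn true (fill S.D S.l S.r M).D
        (fill S.D S.l S.r M).l (fill S.D S.l S.r M).r (x, c) (y, c')) →
        (Quotient.mk st x) = Quotient.mk st y := by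
      intro x y h
      apply Quotient.sound
      rw [hst]
      exact Relation.EqvGen.rel _ _ h
    have hin : ∀ v (p p' : (M v).V), (Quotient.mk st ⟨v, p⟩) = Quotient.mk st ⟨v, p'⟩ := by
      intro v p p'
      have h := (G v).conn.2 p p'
      induction h with
      | rel a b h =>
        apply hrel
        obtain ⟨c, c', hcc⟩ := h
        refine ⟨c, c', ?_⟩
        exact (hEdge S M _ _).2 (Or.inl ⟨v, (a, c), (b, c'), hcc, rfl, rfl⟩)
      | refl a => rfl
      | symm a b _ ih => exact ih.symm
      | trans a b c _ _ ih1 ih2 => exact ih1.trans ih2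
    have hall := (hConn S).1 (Quotient st) (fun v => Quotient.mk st ⟨v, (M v).l⟩) (by
      intro c c' h
      rcases sm_next S h with h1 | h1
      · have h2 : (Quotient.mk st ⟨c.1, (M c.1).r⟩) =
            Quotient.mk st ⟨c'.1, (M c'.1).D.overNext (M c'.1).r⟩ := by
          apply hrel
          exact ⟨_, _, (hEdge S M _ _).2 (Or.inr (Or.inr ⟨c.1, c'.1, h1, Or.inl ⟨rfl, rfl⟩⟩))⟩
        exact (hin c.1 _ _).trans (h2.trans (hin c'.1 _ _))
      · have h2 : (Quotient.mk st ⟨c.1, (M c.1).l⟩) =
            Quotient.mk st ⟨c'.1, (M c'.1).D.underNext (M c'.1).l⟩ := by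
          apply hrel
          exact ⟨_, _, (hEdge S M _ _).2 (Or.inr (Or.inl ⟨c.1, c'.1, h1, Or.inl ⟨rfl, rfl⟩⟩))⟩
        exact (hin c.1 _ _).trans (h2.trans (hin c'.1 _ _)))
    intro x y
    have h1 : (Quotient.mk st x) = Quotient.mk st y :=
      (hin x.1 x.2 (M x.1).l).trans ((hall x.1 y.1).trans (hin y.1 (M y.1).l y.2))
    have h2 := Quotient.exact h1
    rw [hst] at h2
    exact h2
  · change lab S M F G S.l ((G S.l).ρ (uL (M S.l).D (M S.l).l)) = _
    rw [(G S.l).l1, lab_W, r_left, S.hl]
  · rw [hun]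
    change lab S M F G wl ((G wl).ρ (jL (M wl).D ((M wl).D.underNext (M wl).l))) = _
    rw [(G wl).l2, lab_W, r_left S none, hwl]
  · change lab S M F G S.l ((G S.l).ρ (uR (M S.l).D (M S.l).l)) = _
    rw [(G S.l).l3, lab_N, r_under, S.hl]
  · rw [hun]
    change lab S M F G wl ((G wl).ρ (jR (M wl).D ((M wl).D.underNext (M wl).l))) = _
    rw [(G wl).l4, lab_S, r_under S none, hwl]
  · change lab S M F G S.r ((G S.r).ρ (oL (M S.r).D (M S.r).r)) = _
    rw [(G S.r).t1 rfl, lab_N, r_over, S.hr]
  · rw [hov]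
    change lab S M F G wr ((G wr).ρ (iL (M wr).D ((M wr).D.overNext (M wr).r))) = _
    rw [(G wr).t2 rfl, lab_S, r_over S none, hwr]
  · change lab S M F G S.r ((G S.r).ρ (oR (M S.r).D (M S.r).r)) = _
    rw [(G S.r).t3 rfl, lab_E, r_right, S.hr]
  · rw [hov]
    change lab S M F G wr ((G wr).ρ (iR (M wr).D ((M wr).D.overNext (M wr).r))) = _
    rw [(G wr).t4 rfl, lab_E, r_right S none, hwr]

end Pool.Agent.Helper16.PG
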