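import Pool.Agent.Helper99.PG.Goals

/-!
PROJECT C2, target (a), packet TREEIN: the lattice point of a tree lies in the set of lattice
points of the graph of the circles.
-/

namespace Pool.Agent.Helper16.PG

open Pool.Agent.Helper36.SC Pool.Agent.Helper37.Arb Pool.Agent.Helper52.C2
open Pool.Agent.Helper99.PG
open scoped Classical

/-- the circle in the direction `d` at `v` -/
noncomputable def dcirc {V : Type} (G : BG (Option V)) (v : V) (d : Bool) : G.C :=
  if d then G.lf (some v) else G.rt (some v)

theorem lf_alpha {E : Type} {α β : Equiv.Perm E} {G : BG E} (h : IsCirc α β G) (e : E) :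
    G.lf (α e) = G.lf e :=
  (h.1 _ _).2 (Equiv.Perm.sameCycle_apply_left.2 (Equiv.Perm.SameCycle.refl α e))

theorem rt_beta {E : Type} {α β : Equiv.Perm E} {G : BG E} (h : IsCirc α β G) (e : E) :
    G.rt (β e) = G.rt e :=
  (h.2.1 _ _).2 (Equiv.Perm.sameCycle_apply_left.2 (Equiv.Perm.SameCycle.refl β e))

theorem rt_beta_symm {E : Type} {α β : Equiv.Perm E} {G : BG E} (h : IsCirc α β G) (e : E) :
    G.rt (β.symm e) = G.rt e := by
  have h1 := rt_beta h (β.symm e)
  rw [Equiv.apply_symm_apply] at h1
  exact h1.symm

/-- the step over `none` stays on its right circle -/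
theorem rt_removeNone {V : Type} {α β : Equiv.Perm (Option V)} {G : BG (Option V)}
    (h : IsCirc α β G) (v : V) :
    G.rt (some ((Equiv.removeNone β).symm v)) = G.rt (some v) := by
  obtain ⟨w, hw⟩ : ∃ w, w = (Equiv.removeNone β).symm v := ⟨_, rfl⟩
  rw [← hw]
  have hv : Equiv.removeNone β w = v := by rw [hw, Equiv.apply_symm_apply]
  by_cases hn : ∃ x', β (some w) = some x'
  · have h1 := Equiv.removeNone_some β hn
    rw [hv] at h1
    rw [h1, rt_beta h]
  · have hn' : β (some w) = none := by
      cases hc : β (some w) with
      | none => rfl
      | some x => exact absurd ⟨x, hc⟩ hn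
    have h1 := Equiv.removeNone_none β hn'
    rw [hv] at h1
    rw [h1, rt_beta h, ← hn', rt_beta h]

/-- a port that leads to the exit does not lie off `U` -/
theorem port_in {V : Type} [Fintype V] [DecidableEq V] (H : Hyp V) (G : BG (Option V))
    (h : IsCirc H.α H.β G) (κ : Bool) (W : Finset V) (A : V → Bool) (U : Finset G.C)
    (hl : G.lf none ∈ U) (hr : κ = true → G.rt none ∈ U)
    (hp : ∀ v ∈ W, pick G A v ∈ U → G.lf (some v) ∈ U ∧ G.rt (some v) ∈ U)
    (p : Port V) (hacc : Acc (fun q p => suc H.up (H.dn κ) W A p = some q) p) :
    dcirc G p.1 p.2 ∈ U := by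
  induction hacc with
  | intro p _ ih =>
    by_contra hU
    obtain ⟨d, hd⟩ : ∃ d, d = (if p.1 ∈ W then A p.1 else p.2) := ⟨_, rfl⟩
    have hdU : dcirc G p.1 d ∉ U := by
      by_cases hW : p.1 ∈ W
      · rw [if_pos hW] at hd
        intro hc
        have h1 := hp p.1 hW (by
          unfold pick
          unfold dcirc at hc
          rw [hd] at hc
          exact hc)
        apply hU
        unfold dcirc
        split_ifs
        · exact h1.1
        · exact h1.2
      · rw [if_neg hW] at hd
        rw [hd]
        exact hU
    have hsuc : suc H.up (H.dn κ) W A p = nxt H.up (H.dn κ) p.1 d := by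
      unfold suc
      by_cases hW : p.1 ∈ W
      · rw [if_pos hW] at hd
        rw [if_pos hW, hd]
      · rw [if_neg hW] at hd
        rw [if_neg hW, hd]
    cases d with
    | true =>
      have hdU' : G.lf (some p.1) ∉ U := hdU
      cases hc : H.α (some p.1) with
      | none =>
        apply hdU'
        rw [← lf_alpha h (some p.1), hc]
        exact hl
      | some w =>
        have h1 : suc H.up (H.dn κ) W A p = some (w, true) := by
          rw [hsuc]
          change (H.α (some p.1)).map (fun w => (w, true)) = some (w, true)
          rw [hc]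
          rfl
        have h2 := ih (w, true) h1
        apply hdU'
        rw [← lf_alpha h (some p.1), hc]
        exact h2
    | false =>
      have hdU' : G.rt (some p.1) ∉ U := hdU
      cases κ with
      | true =>
        cases hc : H.β.symm (some p.1) with
        | none =>
          apply hdU'
          rw [← rt_beta_symm h (some p.1), hc]
          exact hr rfl
        | some w =>
          have h1 : suc H.up (H.dn true) W A p = some (w, false) := by
            rw [hsuc]
            change (H.β.symm (some p.1)).map (fun w => (w, false)) = some (w, false)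
            rw [hc]
            rfl
          have h2 := ih (w, false) h1
          apply hdU'
          rw [← rt_beta_symm h (some p.1), hc]
          exact h2
      | false =>
        have h1 : suc H.up (H.dn false) W A p =
            some ((Equiv.removeNone H.β).symm p.1, false) := by
          rw [hsuc]
          rfl
        have h2 := ih _ h1
        apply hdU'
        rw [← rt_removeNone h p.1]
        exact h2

theorem mem_trees {V : Type} [Fintype V] (H : Hyp V) (κ : Bool) (W : Finset V) (A : V → Bool)
    (hA : A ∈ H.trees κ W) : (∀ v, v ∉ W → A v = true) ∧ Reach H.up (H.dn κ) W A := by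
  unfold Hyp.trees at hA
  exact (Finset.mem_filter.1 hA).2

/-- TREEIN -/
theorem treeIn : GoalTreeIn := by
  intro hS V _ _ H G h κ W A hA
  rw [(hS G κ W A).2]
  intro U _ hU1
  have hreach : Reach H.up (H.dn κ) W A := (mem_trees H κ W A hA).2
  have hsub : (W.filter fun v => G.lf (some v) ∈ U ∧ G.rt (some v) ∈ U) ⊆
      (W.filter fun v => pick G A v ∈ U) := by
    intro v hv
    rw [Finset.mem_filter] at hv ⊢
    refine ⟨hv.1, ?_⟩
    unfold pick
    split_ifs
    · exact hv.2.1
    · exact hv.2.2
  have hle : Pool.Agent.Helper99.PG.inner G W U ≤ chosen G W A U := by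
    unfold Pool.Agent.Helper99.PG.inner chosen
    exact_mod_cast Finset.card_le_card hsub
  by_cases hex : G.lf none ∈ U ∧ (κ = true → G.rt none ∈ U)
  · have he : exits G κ U = 1 := by
      unfold exits
      rw [if_pos hex]
    rw [he]
    by_contra hlt
    have hle2 : chosen G W A U ≤ Pool.Agent.Helper99.PG.inner G W U := by omega
    have heq : (W.filter fun v => G.lf (some v) ∈ U ∧ G.rt (some v) ∈ U) =
        (W.filter fun v => pick G A v ∈ U) := by
      apply Finset.eq_of_subset_of_card_le hsub
      unfold Pool.Agent.Helper99.PG.inner chosen at hle2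
      exact_mod_cast hle2
    have hp : ∀ v ∈ W, pick G A v ∈ U → G.lf (some v) ∈ U ∧ G.rt (some v) ∈ U := by
      intro v hv hc
      have h1 : v ∈ W.filter fun v => pick G A v ∈ U := Finset.mem_filter.2 ⟨hv, hc⟩
      rw [← heq] at h1
      exact (Finset.mem_filter.1 h1).2
    have hport := fun p => port_in H G h κ W A U hex.1 hex.2 hp p (hreach p)
    apply hU1
    rw [Finset.eq_univ_iff_forall]
    intro c
    rcases h.2.2 c with ⟨e, he⟩ | ⟨e, he⟩
    · cases e with
      | none => rw [← he]; exact hex.1
      | some v => rw [← he]; exact hport (v, true)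
    · cases e with
      | none =>
        cases hc : H.β none with
        | none => exact absurd hc H.hβ
        | some w =>
          have h1 := rt_beta h none
          rw [hc] at h1
          rw [← he, ← h1]
          exact hport (w, false)
      | some v => rw [← he]; exact hport (v, false)
  · have he : exits G κ U = 0 := by
      unfold exits
      rw [if_neg hex]
    rw [he]
    omega

end Pool.Agent.Helper16.PG
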